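import Pool.Agent.helper64.QF.Spec

set_option autoImplicit false

namespace Pool.Agent.helper64.QF

open Metric MeasureTheory Set Filter Topology
open Pool.Agent.helper37.PR

namespace SEPx

variable {n : ℕ}

/-- the linear polynomials of `A` -/
noncomputable def linp (A : E n →L[ℂ] E n) (j : Fin n) : MvPolynomial (Fin n) ℂ :=
  ∑ i : Fin n, MvPolynomial.C ((A (EuclideanSpace.single i (1 : ℂ))) j) * MvPolynomial.X i

lemma V1_zero : V1 (0 : MvPolynomial (Fin n) ℂ) := by simp [V1]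

lemma lin_zero (u : E n) : lin (0 : MvPolynomial (Fin n) ℂ) u = 0 := by simp [lin]

lemma quad_zero (u : E n) : quad (0 : MvPolynomial (Fin n) ℂ) u = 0 := by simp [quad]

lemma ev_zero (u : E n) : ev (0 : MvPolynomial (Fin n) ℂ) u = 0 := by simp [ev]

lemma sum_facts (hPOL : POL_stmt) (c : Fin n → ℂ) (s : Finset (Fin n)) :
    V1 (∑ i ∈ s, MvPolynomial.C (c i) * MvPolynomial.X i) ∧
    ∀ u : E n, ev (∑ i ∈ s, MvPolynomial.C (c i) * MvPolynomial.X i) u = ∑ i ∈ s, c i * u i ∧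
      lin (∑ i ∈ s, MvPolynomial.C (c i) * MvPolynomial.X i) u = ∑ i ∈ s, c i * u i ∧
      quad (∑ i ∈ s, MvPolynomial.C (c i) * MvPolynomial.X i) u = 0 := by
  classical
  obtain ⟨-, -, h3, h4, -, h6, -⟩ := hPOL n
  induction s using Finset.induction_on with
  | empty =>
    refine ⟨by simpa using V1_zero, fun u => ⟨?_, ?_, ?_⟩⟩
    · simpa using ev_zero u
    · simpa using lin_zero u
    · simpa using quad_zero u
  | insert a s ha ih =>
    rw [Finset.sum_insert ha]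
    obtain ⟨i1, i2⟩ := ih
    have hV : V1 (MvPolynomial.C (c a) * MvPolynomial.X a : MvPolynomial (Fin n) ℂ) :=
      (h4 (c a) (MvPolynomial.X a) (MvPolynomial.X a)).2.2.1 (h6 a).1
    refine ⟨(h4 1 _ _).1 hV i1, fun u => ?_⟩
    obtain ⟨e1, e2, e3⟩ := i2 u
    obtain ⟨x1, x2, x3⟩ := (h6 a).2 u
    have g := h3 (c a) (MvPolynomial.X a) (MvPolynomial.X a) u
    have g' := h3 1 (MvPolynomial.C (c a) * MvPolynomial.X a)
      (∑ i ∈ s, MvPolynomial.C (c i) * MvPolynomial.X i) u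
    obtain ⟨-, -, ga, -, gb, -, gc⟩ := g
    obtain ⟨g1, -, -, g2, -, g3, -⟩ := g'
    refine ⟨?_, ?_, ?_⟩
    · rw [g1, ga, e1, x1, Finset.sum_insert ha]
    · rw [g2, gb, e2, x2, Finset.sum_insert ha]
    · rw [g3, gc, e3, x3]; simp

lemma sum_single (z : E n) : z = ∑ i : Fin n, z i • (EuclideanSpace.single i (1 : ℂ) : E n) := by
  ext j
  simp [Finset.sum_apply, Pi.single_apply]

lemma A_apply (A : E n →L[ℂ] E n) (z : E n) (j : Fin n) :
    (A z) j = ∑ i : Fin n, (A (EuclideanSpace.single i (1 : ℂ))) j * z i := by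
  conv_lhs => rw [sum_single z]
  rw [map_sum]
  simp only [map_smul]
  simp [Finset.sum_apply, mul_comm]

lemma linp_facts (hPOL : POL_stmt) (A : E n →L[ℂ] E n) :
    (∀ j, V1 (linp A j)) ∧ (∀ z : E n, lm (linp A) z = A z) ∧ (∀ z : E n, pm (linp A) z = A z) ∧
      (∀ z : E n, qm (linp A) z = 0) := by
  have h := fun j => sum_facts hPOL (fun i => (A (EuclideanSpace.single i (1 : ℂ))) j) Finset.univ
  refine ⟨fun j => (h j).1, fun z => ?_, fun z => ?_, fun z => ?_⟩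
  · ext j
    simp only [lm]
    rw [A_apply]
    exact ((h j).2 z).2.1
  · ext j
    simp only [pm]
    rw [A_apply]
    exact ((h j).2 z).1
  · ext j
    simp only [qm]
    exact ((h j).2 z).2.2

end SEPx

theorem SEP (hSPM : SPM_stmt) (hHIL : HIL_stmt) (hSG0 : SG0_stmt) (hPOL : POL_stmt) : SEP_stmt := by
  intro n A m hm hA U V hU hV c hc
  by_cases hc0 : c ≤ 0
  · obtain ⟨h1, h2, h3, h4⟩ := SEPx.linp_facts hPOL A
    refine ⟨SEPx.linp A, h1, h2, ?_, ?_⟩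
    · intro ζ hζ
      rw [h3 ζ]
      have h := hA ζ
      have hz : ‖ζ‖ = 1 := by simpa using hζ
      rw [hz] at h
      unfold qA at h
      nlinarith
    · rw [h4 U]; simpa using hc0
  · have hc1 : 0 < c := not_le.mp hc0
    by_contra hno
    obtain ⟨μ, hμf, hμs, hμ, hle⟩ := hSPM n A m hm hA U V hU hV c hc1 hno
    have hU0 : 0 < ‖U‖ := norm_pos_iff.mpr hU
    have hV0 : 0 < ‖V‖ := norm_pos_iff.mpr hV
    have hu : ‖(((‖U‖⁻¹ : ℝ) : ℂ) • U)‖ = 1 := by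
      rw [norm_smul, Complex.norm_real, norm_inv, norm_norm, inv_mul_cancel₀ hU0.ne']
    have hv : ‖(-(((‖V‖⁻¹ : ℝ) : ℂ) • V))‖ = 1 := by
      rw [norm_neg, norm_smul, Complex.norm_real, norm_inv, norm_norm, inv_mul_cancel₀ hV0.ne']
    obtain ⟨a, b, hab, hcost⟩ := hHIL n μ hμf _ _ hu hv hμs hμ
    have hA0 : ∀ x : E n, 0 ≤ qA A x := fun x => le_trans (by positivity) (hA x)
    have h1 := hcost A hA0
    obtain ⟨-, -, hs1, -, -, -, hs2⟩ := hSG0 n A hA0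
    obtain ⟨hadm, heq⟩ := hs2 U V a b hU hV hab
    have h2 := hs1 U V _ _ hadm
    rw [heq] at h2
    have h3 : cost A (((‖U‖⁻¹ : ℝ) : ℂ) • U) (-(((‖V‖⁻¹ : ℝ) : ℂ) • V)) a b ≤
        c / (‖U‖ ^ 2 * ‖V‖) := le_trans h1 hle
    have hp : 0 < ‖U‖ ^ 2 * ‖V‖ := by positivity
    have h4 : ‖U‖ ^ 2 * ‖V‖ * cost A (((‖U‖⁻¹ : ℝ) : ℂ) • U) (-(((‖V‖⁻¹ : ℝ) : ℂ) • V)) a b ≤ c := by
      have := mul_le_mul_of_nonneg_left h3 hp.le
      rwa [mul_div_cancel₀ _ hp.ne'] at this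
    linarith

end Pool.Agent.helper64.QF
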