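import Pool.Agent.helper66.QF.CLS
import Pool.Agent.helper3.QF.LIN
import Pool.Agent.helper72.QF.KEX
import Pool.Agent.helper58.QF.SG0
import Pool.Agent.helper18.QF.SUP
import Pool.Agent.helper19.QF.PLI
import Pool.Agent.helper11.QF.POL
import Pool.Agent.helper38.QF.PP2
import Pool.Agent.helper73.QF.PSC
import Pool.Agent.helper34.QF.HIL
import Pool.Agent.helper62.QF.SPM
import Pool.Agent.helper64.QF.SEP
import Pool.Agent.helper43.QF.SIC
import Pool.Agent.helper77.QF.INT
import Pool.Agent.helper87.QF.EXF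
import Pool.Agent.helper91.QF.MEA
import Pool.Agent.helper97.QF.PF2
import Pool.Agent.helper46.QF.UPB
import Pool.Agent.helper58.QF.NEM
import Pool.Agent.helper80.QF.LEX
import Pool.Agent.helper93.QF.LAN
import Pool.Agent.helper92.QF.GLU
import Pool.Agent.helper26.QF.CNS
import Pool.Agent.helper55.QF.PWC
import Pool.Agent.helper67.QF.LWB
import Pool.Agent.helper62.QF.FIN

/-!
MP_b9b9c0_an, project `pq:`: all modules together.
-/

set_option autoImplicit false

namespace Pool.Agent.helper64.QF

theorem res_all : FIN_stmt := by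
  have hSUP := SUP KEX SG0
  have hPSC := PSC PP2
  have hHIL := HIL POL
  have hSPM := SPM POL
  have hSEP := SEP hSPM hHIL SG0 POL
  have hSIC := SIC hSEP hPSC PP2 hSUP SG0 PLI
  have hINT := INT hSIC LIN
  have hMEA := MEA LIN
  have hPF2 := PF2 EXF hMEA LIN PLI
  have hUPB := UPB hPF2 hSUP hINT
  have hLEX := LEX PP2
  have hLAN := LAN NEM hLEX
  have hGLU := GLU LIN
  have hCNS := CNS hGLU EXF LIN
  have hPWC := PWC hCNS hPF2
  have hLWB := LWB hSEP hPSC PP2 PLI hLAN hPWC hINT LIN SG0
  exact FIN CLS hINT hUPB hLWB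

end Pool.Agent.helper64.QF
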