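import Pool.Agent.helper37.PR.Upper
import Pool.Agent.helper37.PR.Normal

/-!
MP_b9b9c0_an, Q2, `m = 2`, every `A` in the class.  Definitions of the project `pq:`.

`⟨x, y⟩` of the problem is `inner ℂ y x`.  `IsCara`, `IsHerglotz`, `IsLoewner`, `ParamRep`, `P2`,
`dual`, `mNum`, `kPlus` are the definitions of the hand-in SharpP2 (`Pool/Agent/helper37/PR`).
-/

set_option autoImplicit false

namespace Pool.Agent.helper64.QF

open Metric MeasureTheory Set Filter Topology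
open Pool.Agent.helper37.PR

/-- `ℂⁿ` with its Hermitian norm -/
abbrev E (n : ℕ) := EuclideanSpace ℂ (Fin n)

variable {n : ℕ}

/-- `Re ⟨A x, x⟩` -/
noncomputable def qA (A : E n →L[ℂ] E n) (x : E n) : ℝ := (inner ℂ x (A x)).re

/-- the admissible pairs `(a, b)`: `a, b > 0`, `‖a U‖ ≤ 1`, `‖b V‖ ≤ 1`,
`‖a U‖² + ‖b V‖² ≤ 1 + |⟨a U, b V⟩|²` -/
def Adm (U V : E n) (a b : ℝ) : Prop :=
  0 < a ∧ 0 < b ∧ a * ‖U‖ ≤ 1 ∧ b * ‖V‖ ≤ 1 ∧
    (a * ‖U‖) ^ 2 + (b * ‖V‖) ^ 2 ≤ 1 + (a * b * ‖(inner ℂ U V : ℂ)‖) ^ 2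

/-- the cost `Re ⟨A U, U⟩ / b + b Re ⟨A V, V⟩ / a²` -/
noncomputable def cost (A : E n →L[ℂ] E n) (U V : E n) (a b : ℝ) : ℝ :=
  qA A U / b + b * qA A V / a ^ 2

/-- `σ_A(U, V)`: the infimum of the cost over the admissible pairs -/
noncomputable def sig (A : E n →L[ℂ] E n) (U V : E n) : ℝ :=
  sInf {x : ℝ | ∃ a b : ℝ, Adm U V a b ∧ x = cost A U V a b}

/-- the linear flow `e^{-tA} U` -/
noncomputable def fw (A : E n →L[ℂ] E n) (U : E n) (t : ℝ) : E n :=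
  (NormedSpace.exp ((-(t : ℂ)) • A)) U

/-- the integrand `σ_A(e^{-tA} U, e^{tA*} V)` -/
noncomputable def sigt (A : E n →L[ℂ] E n) (U V : E n) (t : ℝ) : ℝ :=
  sig A (fw A U t) (dual A V t)

/-- `J_A(U, V) = ∫₀^∞ σ_A(e^{-tA} U, e^{tA*} V) dt` -/
noncomputable def JA (A : E n →L[ℂ] E n) (U V : E n) : ℝ := ∫ t in Ioi (0 : ℝ), sigt A U V t

/-- quantitative form of the condition that `A` is in the class -/
structure Cls (A : E n →L[ℂ] E n) (m κ C : ℝ) : Prop where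
  m0 : 0 < m
  low : ∀ x : E n, m * ‖x‖ ^ 2 ≤ qA A x
  mκ : m ≤ κ
  κ2 : κ < 2 * m
  C1 : 1 ≤ C
  grow : ∀ t : ℝ, 0 ≤ t → ‖NormedSpace.exp ((t : ℂ) • A)‖ ≤ C * Real.exp (κ * t)

/-! ### polynomial maps -/

/-- evaluation of a polynomial at a point of `ℂⁿ` -/
noncomputable def ev (p : MvPolynomial (Fin n) ℂ) (z : E n) : ℂ := MvPolynomial.eval (fun i => z i) p

/-- `p` vanishes at `0` -/
def V1 (p : MvPolynomial (Fin n) ℂ) : Prop := MvPolynomial.eval (fun _ => (0 : ℂ)) p = 0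

/-- `p` vanishes at `0` to order two -/
def V2 (p : MvPolynomial (Fin n) ℂ) : Prop :=
  V1 p ∧ ∀ i, MvPolynomial.eval (fun _ => (0 : ℂ)) (MvPolynomial.pderiv i p) = 0

/-- the linear part of `p` at `0`, at the point `u` -/
noncomputable def lin (p : MvPolynomial (Fin n) ℂ) (u : E n) : ℂ :=
  ∑ i, u i * MvPolynomial.eval (fun _ => (0 : ℂ)) (MvPolynomial.pderiv i p)

/-- the quadratic part of `p` at `0`, at the point `u` -/
noncomputable def quad (p : MvPolynomial (Fin n) ℂ) (u : E n) : ℂ :=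
  (1 / 2) * ∑ i, ∑ j, u i * u j *
    MvPolynomial.eval (fun _ => (0 : ℂ)) (MvPolynomial.pderiv i (MvPolynomial.pderiv j p))

/-- the polynomial map with components `p j` -/
noncomputable def pm (p : Fin n → MvPolynomial (Fin n) ℂ) (z : E n) : E n :=
  WithLp.toLp 2 (fun j => ev (p j) z)

/-- its quadratic part at `0` -/
noncomputable def qm (p : Fin n → MvPolynomial (Fin n) ℂ) (z : E n) : E n :=
  WithLp.toLp 2 (fun j => quad (p j) z)

/-- its linear part at `0` -/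
noncomputable def lm (p : Fin n → MvPolynomial (Fin n) ℂ) (z : E n) : E n :=
  WithLp.toLp 2 (fun j => lin (p j) z)

/-! ### flows -/

/-- short time flow data of `x' = -h(x)` in the ball, holomorphic in the initial value -/
structure LFlow (h : E n → E n) (τ : ℝ) (X : E n → ℝ → E n) : Prop where
  init : ∀ z ∈ ball (0 : E n) 1, X z 0 = z
  mem : ∀ z ∈ ball (0 : E n) 1, ∀ t ∈ Icc (0 : ℝ) τ, X z t ∈ ball (0 : E n) 1
  der : ∀ z ∈ ball (0 : E n) 1, ∀ t ∈ Icc (0 : ℝ) τ,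
    HasDerivWithinAt (X z) (-(h (X z t))) (Icc (0 : ℝ) τ) t
  an : ∀ t ∈ Icc (0 : ℝ) τ, AnalyticOnNhd ℂ (fun z => X z t) (ball (0 : E n) 1)

/-- the vector field that is `H i` on `[i τ, (i+1) τ)` for `i < N`, and `A` after the time `N τ` -/
noncomputable def hglue (A : E n →L[ℂ] E n) (N : ℕ) (τ : ℝ) (H : ℕ → E n → E n) (z : E n) (t : ℝ) :
    E n :=
  if t < N * τ then H ⌊t / τ⌋₊ z else A z

end Pool.Agent.helper64.QF
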