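import Pool.Agent.helper64.QF.Defs

/-!
# Project `pq:` (MP_b9b9c0_an, Q2, `m = 2`, every `A` of the class): statements of the modules

The files `Pool/Agent/helper37/PR/{Defs,Expand,OneVar,Key,Bound,AC,Flow,Upper,Normal}.lean`
(landed, imported here) contain many lemmas that are used below: `taylor2`, `P2_smul`,
`P2_continuous`, `P2_differentiable`, `GoodCurve`, `Mfun_*`, `re_deriv_nonneg`, `P2_bound`
(`‖P2 h v‖ ≤ 4 ‖A‖ ‖v‖²`), `remainder3`, `remainder2`, `flow_le`, `flow_decay`, `ac_le_zero`,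
`ac_exp`, `ac_normSq`, `ac_reInner`, `hasDerivAt_reInner`, `dual_hasDerivAt`, `dual_inner`,
`dual_ac`, `reInner_self`, `reInner_comm`.

Conventions: the mathematical `⟨x, y⟩` is `inner ℂ y x`.
Each module proves one statement, e.g. `theorem KEX : KEX_stmt`; the statements it uses are
hypotheses, e.g. `theorem SUP (hKEX : KEX_stmt) : SUP_stmt`.
-/

set_option autoImplicit false

namespace Pool.Agent.helper64.QF

open Metric MeasureTheory Set Filter Topology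
open Pool.Agent.helper37.PR

/-! ## A. the class and the linear flows -/

/-- **CLS** (medium/long).
Proof.  For `n = 0` the sets defining `mNum`, `kPlus` are empty and both numbers are `0`, so the
hypothesis fails.  Let `n ≥ 1`, `m := mNum A`; `exists_min`, `min_homog` (Normal.lean) give
`m ‖x‖² ≤ qA A x` for all `x`.  `A` has an eigenvector `e`, `‖e‖ = 1`, `A e = l e`, and
`Re l = qA A e ≥ m`; the set of eigenvalues is finite, so `m ≤ Re l ≤ kPlus A < 2 m`, hence `m > 0`.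
Put `κ := (kPlus A + 2 m) / 2`, so `m ≤ kPlus A < κ < 2 m`.
Growth: let `W` be the set of all `x` with `∃ C, ∀ t ≥ 0, ‖exp(tA) x‖ ≤ C e^{κ t}`; it is a
submodule.  If `(A - l)^N x = 0` for an eigenvalue `l` then
`exp(tA) x = e^{l t} exp(t (A - l)) x = e^{l t} ∑_{j < N} (t^j / j!) (A - l)^j x` (the operators `l` and
`A - l` commute; the exponential series applied to `x` is a finite sum), and `|e^{l t}| ≤ e^{t kPlus A}`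
and `t^j ≤ C_j e^{(κ - kPlus A) t}`; so `x ∈ W`.  (Alternatively: induction on `N`: `y(t) = exp(tA) x`
satisfies `y' = l y + exp(tA)((A-l)x)`.)  The generalized eigenspaces span
(`Module.End.iSup_maxGenEigenspace_eq_top`), so `W = ⊤`.  With the standard basis `e_i`:
`‖exp(tA)‖ ≤ ∑_i ‖exp(tA) e_i‖ ≤ C e^{κ t}`; replace `C` by `max 1 C`. -/
def CLS_stmt : Prop := ∀ (n : ℕ) (A : E n →L[ℂ] E n), kPlus A < 2 * mNum A →
  ∃ m κ C : ℝ, Cls A m κ C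

/-- **LIN** (short/medium): the linear flows.
Proof.  `exp((s+t)B) = exp(sB) exp(tB)`; derivative as in `dual_hasDerivAt`.  Norm of `fw`:
`d/dt (e^{2mt} ‖x‖²) = e^{2mt} (2m ‖x‖² - 2 Re ⟨Ax, x⟩) ≤ 0`.  Norm of `dual`: `dual A V t =
(exp(tA))^* V` (proof of `dual_inner`) and `‖B^*‖ = ‖B‖`.  `dual_inner` gives the pairing. -/
def LIN_stmt : Prop := ∀ (n : ℕ) (A : E n →L[ℂ] E n) (m κ C : ℝ), Cls A m κ C → ∀ U V : E n,
  fw A U 0 = U ∧ (∀ t : ℝ, HasDerivAt (fw A U) (-(A (fw A U t))) t) ∧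
  (∀ t : ℝ, 0 ≤ t → ‖fw A U t‖ ≤ ‖U‖ * Real.exp (-(m * t))) ∧
  (∀ t : ℝ, 0 ≤ t → ‖dual A V t‖ ≤ C * ‖V‖ * Real.exp (κ * t)) ∧
  (∀ t : ℝ, (inner ℂ (dual A V t) (fw A U t) : ℂ) = inner ℂ V U) ∧
  (∀ t : ℝ, NormedSpace.exp ((t : ℂ) • A) (fw A U t) = U) ∧
  (∀ s t : ℝ, fw A (fw A U s) t = fw A U (s + t)) ∧
  Continuous (fw A U) ∧ Continuous (dual A V) ∧
  (U ≠ 0 → ∀ t : ℝ, fw A U t ≠ 0) ∧ (V ≠ 0 → ∀ t : ℝ, dual A V t ≠ 0) ∧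
  (∀ t : ℝ, fw A U t = (NormedSpace.exp ((-(t : ℂ)) • A)) U)

/-! ## B. the upper bound in the Caratheodory family -/

/-- **KEX** (medium): the key inequality on the full domain.
Proof.  Let `s₀ = inner ℂ b c`.  For `0 < r < 1` put `b' = r b`, `c' = r c`, `s = inner ℂ b' c' = r² s₀`,
`‖s‖ ≤ r² < 1`.  `‖b'‖² + ‖c'‖² ≤ r² (1 + ‖s₀‖²) ≤ 1 + r⁴ ‖s₀‖² = 1 + ‖s‖²`, since
`(1 - r²)(1 - r² ‖s₀‖²) ≥ 0`.  Hence `GoodCurve b' c' s 1`: for `‖ζ‖ < 1`, `1 + sζ ≠ 0` and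
`‖b' + ζ c'‖² = ‖b'‖² + ‖ζ‖² ‖c'‖² + 2 Re(sζ) ≤ 1 + ‖s‖² ‖ζ‖² + 2 Re(sζ) = ‖1 + sζ‖²` because
`‖b'‖² + x ‖c'‖² ≤ 1 + x ‖s‖²` is affine in `x = ‖ζ‖²` and holds for `x = 0` and `x = 1`.
(Compare `goodCurve_of`.)  The proofs of `key_rho`, `key_re`, `key` in `Key.lean` use only
`GoodCurve`; repeat them with `b', c'`.  This gives `‖inner c' (P2 h b')‖ ≤ qA b' + qA c'`, i.e.
`r³ ‖inner c (P2 h b)‖ ≤ r² (qA b + qA c)` (`P2_smul`); let `r → 1`. -/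
def KEX_stmt : Prop := ∀ (n : ℕ) (A : E n →L[ℂ] E n) (h : E n → E n), IsCara A h →
  ∀ b c : E n, ‖b‖ ≤ 1 → ‖c‖ ≤ 1 → ‖b‖ ^ 2 + ‖c‖ ^ 2 ≤ 1 + ‖(inner ℂ b c : ℂ)‖ ^ 2 →
    ‖(inner ℂ c (P2 h b) : ℂ)‖ ≤ qA A b + qA A c

/-- **SG0** (short/medium): first facts on `sig` (all values of the set are `≥ 0`, so it is bounded
below; it is nonempty: `a = b = 1 / (2 (1 + ‖U‖ + ‖V‖))`).
`sig A 0 V = 0`: `cost A 0 V a b = b qA(V) / a² → 0` as `a → ∞` (for `U = 0` every `a > 0` is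
admissible); `sig A U 0 = 0`: `cost A U 0 a b = qA(U) / b → 0` as `b → ∞`. -/
def SG0_stmt : Prop := ∀ (n : ℕ) (A : E n →L[ℂ] E n), (∀ x : E n, 0 ≤ qA A x) →
  (∀ U V : E n, 0 ≤ sig A U V) ∧
  (∀ U V : E n, ∃ a b : ℝ, Adm U V a b) ∧
  (∀ (U V : E n) (a b : ℝ), Adm U V a b → sig A U V ≤ cost A U V a b) ∧
  (∀ (U V : E n) (x : ℝ), (∀ a b : ℝ, Adm U V a b → x ≤ cost A U V a b) → x ≤ sig A U V) ∧
  (∀ V : E n, sig A 0 V = 0) ∧ (∀ U : E n, sig A U 0 = 0) ∧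
  (∀ (U V : E n) (a b : ℝ), U ≠ 0 → V ≠ 0 →
    Adm (((‖U‖⁻¹ : ℝ) : ℂ) • U) (-(((‖V‖⁻¹ : ℝ) : ℂ) • V)) a b →
    Adm U V (a / ‖U‖) (b / ‖V‖) ∧
    cost A U V (a / ‖U‖) (b / ‖V‖) = ‖U‖ ^ 2 * ‖V‖ *
      cost A (((‖U‖⁻¹ : ℝ) : ℂ) • U) (-(((‖V‖⁻¹ : ℝ) : ℂ) • V)) a b)

/-- **SUP** (short).  For admissible `(a, b)`: apply KEX to `a U`, `b V`:
`a² b ‖inner V (P2 h U)‖ = ‖inner (bV) (P2 h (aU))‖ ≤ a² qA(U) + b² qA(V)`. -/
def SUP_stmt : Prop := ∀ (n : ℕ) (A : E n →L[ℂ] E n) (h : E n → E n), IsCara A h →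
  (∀ x : E n, 0 ≤ qA A x) → ∀ U V : E n, ‖(inner ℂ V (P2 h U) : ℂ)‖ ≤ sig A U V

/-- **PLI** (short/medium): Lipschitz bound of the quadratic part.
Proof.  `B(x, y) := (1/2) iteratedFDeriv ℂ 2 h 0 ![x, y]` is bilinear and symmetric (`h` is analytic
at `0`; or put `B(x,y) = (P2 h (x+y) - P2 h (x-y))/4` and prove bilinearity), `P2 h x = B(x, x)`, and for unit
`a, b`: `4 B(a, b) = P2 h (a+b) - P2 h (a-b)`, so `‖B(a, b)‖ ≤ ‖A‖ (‖a+b‖² + ‖a-b‖²) = 4 ‖A‖` by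
`P2_bound`.  Finally `P2 h x - P2 h y = B(x - y, x + y)`. -/
def PLI_stmt : Prop := ∀ (n : ℕ) (A : E n →L[ℂ] E n) (h : E n → E n), IsCara A h →
  (∀ x : E n, ‖P2 h x‖ ≤ 4 * ‖A‖ * ‖x‖ ^ 2) ∧
  ∀ x y : E n, ‖P2 h x - P2 h y‖ ≤ 4 * ‖A‖ * ((‖x‖ + ‖y‖) * ‖x - y‖)

/-! ## C. polynomial maps -/

/-- **POL** (short/medium): algebra of `V1`, `V2`, `lin`, `quad` (Leibniz rule for `pderiv`;
`eval 0` of a product of two polynomials one of which vanishes at `0` is `0`).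
`quad (p q) u = (1/2) ∑ u_i u_j (p_i q_j + p_j q_i) = lin p u · lin q u` for `V1 p`, `V1 q`. -/
def POL_stmt : Prop := ∀ (n : ℕ),
  (∀ p q : MvPolynomial (Fin n) ℂ, V1 p → V1 q → V2 (p * q) ∧ ∀ u : E n,
    quad (p * q) u = lin p u * lin q u) ∧
  (∀ p : MvPolynomial (Fin n) ℂ, V2 p → ∀ u : E n, lin p u = 0) ∧
  (∀ (c : ℂ) (p q : MvPolynomial (Fin n) ℂ) (u : E n),
    ev (p + q) u = ev p u + ev q u ∧ ev (p * q) u = ev p u * ev q u ∧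
    ev (MvPolynomial.C c * p) u = c * ev p u ∧ lin (p + q) u = lin p u + lin q u ∧
    lin (MvPolynomial.C c * p) u = c * lin p u ∧ quad (p + q) u = quad p u + quad q u ∧
    quad (MvPolynomial.C c * p) u = c * quad p u) ∧
  (∀ (c : ℂ) (p q : MvPolynomial (Fin n) ℂ), (V1 p → V1 q → V1 (p + q)) ∧ (V2 p → V2 q → V2 (p + q)) ∧
    (V1 p → V1 (MvPolynomial.C c * p)) ∧ (V2 p → V2 (MvPolynomial.C c * p))) ∧
  (∀ (p : MvPolynomial (Fin n) ℂ) (c : ℂ) (u : E n), quad p (c • u) = c ^ 2 * quad p u ∧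
    lin p (c • u) = c * lin p u) ∧
  (∀ i : Fin n, V1 (MvPolynomial.X i : MvPolynomial (Fin n) ℂ) ∧
    ∀ u : E n, ev (MvPolynomial.X i) u = u i ∧ lin (MvPolynomial.X i) u = u i ∧
      quad (MvPolynomial.X i) u = 0) ∧
  (∀ p : MvPolynomial (Fin n) ℂ, Continuous (ev p : E n → ℂ))

/-- **PP2** (medium): derivatives of polynomial maps at `0`.
Proof.  `HasFDerivAt (ev p) (∑ i, ev (pderiv i p) z • proj i) z` by induction on `p`; hence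
`fderiv ℂ (pm p) 0 z = lm p z`, and the second derivative gives
`iteratedFDeriv ℂ 2 (pm p) 0 (z, z) = 2 qm p z` (`iteratedFDeriv_two_apply`, componentwise). -/
def PP2_stmt : Prop := ∀ (n : ℕ) (p : Fin n → MvPolynomial (Fin n) ℂ), (∀ j, V1 (p j)) →
  AnalyticOnNhd ℂ (pm p) univ ∧ pm p 0 = 0 ∧ (∀ z : E n, fderiv ℂ (pm p) 0 z = lm p z) ∧
    ∀ z : E n, P2 (pm p) z = qm p z

/-- **PSC** (medium): positivity on the sphere gives the class `𝒩_A`.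
Proof.  By PP2, `pm p` is analytic, `pm p 0 = 0` and its derivative at `0` is `A`.  Positivity in the
ball: for a unit vector `e` the function `q(ζ) = dslope (fun ζ => inner ℂ e (pm p (ζ e))) 0 ζ` is entire and
`Re q(ζ) = Re ⟨pm p(ζe), ζe⟩ > 0` for `‖ζ‖ = 1`; by compactness `Re q ≥ δ > 0` on the circle and
`re_nonneg_of_sphere` (OneVar.lean) (or the maximum principle for `exp(-q)`) gives `Re q ≥ δ` in the
disc.  For `0 < ‖z‖ < 1`, `z = ‖z‖ e`: `Re ⟨pm p z, z⟩ = ‖z‖² Re q(‖z‖) > 0`. -/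
def PSC_stmt : Prop := ∀ (n : ℕ) (A : E n →L[ℂ] E n) (p : Fin n → MvPolynomial (Fin n) ℂ),
  (∀ j, V1 (p j)) → (∀ z : E n, lm p z = A z) →
  (∀ ζ ∈ sphere (0 : E n) 1, 0 < (inner ℂ ζ (pm p ζ) : ℂ).re) → IsCara A (pm p)

/-! ## D. duality -/

/-- **HIL** (LONG): the dual bound.
Proof.  Write `⟨f, g⟩ = ∫ f conj(g) dμ` in `L² = L²(μ)`; on the sphere `∑_k |ζ_k|² = 1`.  For `e : E n`
let `V_e(ζ) = ⟨ζ, e⟩ = inner ℂ e ζ` (a linear polynomial).  The hypothesis reads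
`⟨p, V_e⟩ = -quad p u · inner ℂ v e` for `V2 p`.
(1) Let `K₂` be the closure in `L²` of `{ev p : V2 p}` and `g` the orthogonal projection of `V_v` to `K₂`.
For `V2 p`: `⟨p, g⟩ = ⟨p, V_v⟩ = -quad p u`, and the projection of `V_e` to `K₂` is `(inner ℂ e v) g`.
Put `G = ‖g‖²`.
(2) Let `w` be the element of minimal norm of the closure of the convex set
`{ev p : V1 p, lin p u = 1}` (nonempty: `p = ∑ conj(u_i) X_i`), `ω = ‖w‖²`.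
(3) `V_e - (inner ℂ e v) g` is in the closure of `{ev q : V1 q, lin q u = inner ℂ e u}`, so its norm squared is
`≥ ω |inner ℂ e u|²`, and it is orthogonal to `g`: `‖V_e‖² ≥ ω |inner ℂ e u|² + G |inner ℂ e v|²`.
(4) If `qA A ≥ 0` let `H = (A + A^*)/2 ≥ 0` with orthonormal eigenvectors `c_i`, eigenvalues
`λ_i ≥ 0`: `qA A ζ = ∑ λ_i |inner ℂ c_i ζ|²`, so `∫ qA A dμ = ∑ λ_i ‖V_{c_i}‖² ≥ ω qA A u + G qA A v`.
(5) For `V1 p`, `lin p u = 1`: `X_k p` is `V2` with `quad = u_k` and `p²` is `V2` with `quad = 1`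
(POL).  Passing to the limit (multiplication by `ζ_k` is continuous on `L²`, `(f, g) ↦ ∫ f g conj(V_e)` is
continuous on `L² × L²`): `⟨ζ_k w, g⟩ = -u_k`, `∫ w² · inner ℂ ζ e dμ = -inner ℂ v e`.
Hence `w ≠ 0`, `ω > 0`; `⟨V_u w, g⟩ = -1` gives `1 ≤ ω G`, so `G > 0`.
(6) Let `f₂(ζ) = g(ζ) conj(w(ζ)) / w(ζ)` where `w(ζ) ≠ 0` and `f₂ = g` where `w = 0`; `|f₂| = |g|`.  Let
`X_k = ζ_k conj(w)`.  Then `∑ ‖X_k‖² = ω`, `⟨X_k, w⟩ = -v_k`, `⟨X_k, f₂⟩ = -u_k`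
(`conj(w) conj(f₂) = w conj(g)`).  Put `τ = ⟨w, f₂⟩`, `t = |τ| `; `t² ≤ ω G`.  For `β ∈ ℂⁿ` and
`α = (v - conj(τ) β)/ω`: `0 ≤ ∑_k ‖X_k + α_k w + β_k f₂‖² = ω - ‖v - conj(τ) β‖²/ω - 2 Re ⟨u, β⟩ + G ‖β‖²`
`= (ω - 1/ω) + D ‖β‖² - 2 Re ⟨x, β⟩`, `D = G - t²/ω ≥ 0`, `x = u - (τ/ω) v`.  `β = 0`: `ω ≥ 1`.
`β = λ x`, `λ` real: the discriminant gives `‖x‖² ≤ D (ω - 1/ω)`.  With `α₀ = |⟨u, v⟩|`,
`‖x‖² ≥ 1 + t²/ω² - 2 t α₀/ω`, so `1 + t² - 2 t α₀/ω ≤ G ω - G/ω`, and since `t² - 2 t α₀/ω ≥ -α₀²/ω²`: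
`(R)  G ω - G/ω - 1 + α₀²/ω² ≥ 0`.
(7) Put `b = 1/ω ≤ 1`, `a = 1/√(ω G) ≤ 1`.  Divide (R) by `ω G`: `a² + b² ≤ 1 + a² b² α₀²`; so
`Adm u v a b`, and `cost A u v a b = ω qA A u + G qA A v ≤ ∫ qA A dμ` by (4). -/
def HIL_stmt : Prop := ∀ (n : ℕ) (μ : Measure (E n)), IsFiniteMeasure μ → ∀ u v : E n,
  ‖u‖ = 1 → ‖v‖ = 1 → μ (sphere (0 : E n) 1)ᶜ = 0 →
  (∀ p : MvPolynomial (Fin n) ℂ, V2 p → ∀ e : E n,
    ∫ ζ, ev p ζ * inner ℂ ζ e ∂μ = -(quad p u * inner ℂ v e)) →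
  ∃ a b : ℝ, Adm u v a b ∧ ∀ A : E n →L[ℂ] E n, (∀ x : E n, 0 ≤ qA A x) →
    cost A u v a b ≤ ∫ ζ, qA A ζ ∂μ

/-- the polynomials maps that are searched for: first order part `A`, positive on the sphere,
second coefficient at least `c` -/
def Good (n : ℕ) (A : E n →L[ℂ] E n) (U V : E n) (c : ℝ) (p : Fin n → MvPolynomial (Fin n) ℂ) : Prop :=
  (∀ j, V1 (p j)) ∧ (∀ z : E n, lm p z = A z) ∧
  (∀ ζ ∈ sphere (0 : E n) 1, 0 < (inner ℂ ζ (pm p ζ) : ℂ).re) ∧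
  c ≤ -((inner ℂ V (qm p U) : ℂ).re)

/-- **SPM** (LONG): Hahn-Banach and Riesz-Markov.
Proof.  `S = sphere 0 1` (compact, nonempty), `C(S, ℝ)`; for a polynomial map `p` let
`Φ_p(ζ) = Re ⟨pm p ζ, ζ⟩`.  Let `𝓛` be the real vector space of all `p` with `V2 (p j)` for all `j` and
`Re (inner V (qm p U)) = 0`.  Let `q¹_j = (∑ conj(U_i) X_i)² V_j` (`qm q¹ U = ‖U‖⁴ V`) and
`p^c = (linear polynomials of A) - (c / (‖U‖⁴ ‖V‖²)) q¹`, so `-Re (inner V (qm p^c U)) = c`.  By hypothesis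
no element of `Φ_{p^c} + Φ(𝓛)` is `> 0` everywhere on `S`.  The set of the functions `> 0` is open
(compactness) and convex: `geometric_hahn_banach_open` gives a continuous linear `f` on `C(S, ℝ)` and `s`
with `f a < s` on the positive cone and `s ≤ f` on `Φ_{p^c} + Φ(𝓛)`.  Then `0 ≤ s` (`a = ε`), `f ≤ 0` on
the cone (`f (t a) < s`), `f = 0` on `Φ(𝓛)`.  `ℓ = -f` is nonnegative on nonnegative functions,
`ℓ(Φ_{p^c}) ≤ -s ≤ 0`, and `ℓ(1) > 0` (if `ℓ(1) = 0` then `ℓ = 0`, so `0 < s ≤ 0`).  Riesz-Markov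
(`RealRMK`): `ℓ(φ) = ∫ φ dμ_S`; `μ₀` = image of `μ_S` in `E n`.  With
`κ = ℓ(Φ_{q¹}) / Re (inner V (qm q¹ U))`: `ℓ(Φ_h) = κ Re (inner V (qm h U))` for all `h` with `V2`
components (`h - r q¹ ∈ 𝓛` for a real `r`).  `ℓ(Φ_{p^c}) = ∫ qA A dμ₀ - κ c ≤ 0` and
`∫ qA A dμ₀ ≥ m ℓ(1) > 0`, so `κ > 0`.  For `h = p e` (`p` scalar with `V2 p`, `e : E n`):
`∫ Re (ev p ζ · inner ζ e) dμ₀ = κ Re (quad p U · inner V e)`; replacing `e` by `i e` gives the complex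
identity.  `μ = (κ ‖U‖² ‖V‖)⁻¹ μ₀`. -/
def SPM_stmt : Prop := ∀ (n : ℕ) (A : E n →L[ℂ] E n) (m : ℝ), 0 < m →
  (∀ x : E n, m * ‖x‖ ^ 2 ≤ qA A x) → ∀ U V : E n, U ≠ 0 → V ≠ 0 → ∀ c : ℝ, 0 < c →
  (¬ ∃ p, Good n A U V c p) →
  ∃ μ : Measure (E n), IsFiniteMeasure μ ∧ μ (sphere (0 : E n) 1)ᶜ = 0 ∧
    (∀ p : MvPolynomial (Fin n) ℂ, V2 p → ∀ e : E n,
      ∫ ζ, ev p ζ * inner ℂ ζ e ∂μ = -(quad p (((‖U‖⁻¹ : ℝ) : ℂ) • U) *
        inner ℂ (-(((‖V‖⁻¹ : ℝ) : ℂ) • V)) e)) ∧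
    ∫ ζ, qA A ζ ∂μ ≤ c / (‖U‖ ^ 2 * ‖V‖)

/-- **SEP** (short/medium): existence of near extremal polynomial maps.
Proof.  If `c ≤ 0` take `p` = the linear polynomials of `A` (`qm p = 0`, positivity from `m > 0`).  Let
`c > 0` and suppose there is none.  SPM gives `μ`, HIL (with `u = U/‖U‖`, `v = -V/‖V‖`) gives `Adm u v a b`
with `cost A u v a b ≤ ∫ qA A dμ ≤ c/(‖U‖² ‖V‖)`; by the last item of SG0
`sig A U V ≤ cost A U V (a/‖U‖) (b/‖V‖) = ‖U‖² ‖V‖ cost A u v a b ≤ c`, a contradiction. -/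
def SEP_stmt : Prop := ∀ (n : ℕ) (A : E n →L[ℂ] E n) (m : ℝ), 0 < m →
  (∀ x : E n, m * ‖x‖ ^ 2 ≤ qA A x) → ∀ U V : E n, U ≠ 0 → V ≠ 0 → ∀ c : ℝ, c < sig A U V →
  ∃ p, Good n A U V c p

/-- **SIC** (medium): `σ_A` is continuous and bounded.
Proof.  For `U, V ≠ 0` and `c < sig A U V`, SEP + PSC + PP2 give `h = pm p` with `IsCara A h` and
`c ≤ ‖inner V (P2 h U)‖`, and `‖inner V (P2 h U)‖ ≤ sig A U V` for every such `h` (SUP).  Hence by PLI,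
for all `U, V, U', V'` (the cases with a zero vector by SG0, with the trivial `h`):
`sig A U V - sig A U' V' ≤ 4 ‖A‖ (‖U‖² ‖V - V'‖ + ‖V'‖ (‖U‖ + ‖U'‖) ‖U - U'‖)`, because
`inner V (P2 h U) - inner V' (P2 h U') = inner (V - V') (P2 h U) + inner V' (P2 h U - P2 h U')`.
Continuity follows (the right side tends to `0` as `(U', V') → (U, V)`, also with the roles exchanged).
The bound: `P2_bound`. -/
def SIC_stmt : Prop := ∀ (n : ℕ) (A : E n →L[ℂ] E n) (m : ℝ), 0 < m →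
  (∀ x : E n, m * ‖x‖ ^ 2 ≤ qA A x) →
  Continuous (fun q : E n × E n => sig A q.1 q.2) ∧
  ∀ U V : E n, 0 ≤ sig A U V ∧ sig A U V ≤ 4 * ‖A‖ * ‖U‖ ^ 2 * ‖V‖

/-- **INT** (short): from SIC and LIN. -/
def INT_stmt : Prop := ∀ (n : ℕ) (A : E n →L[ℂ] E n) (m κ C : ℝ), Cls A m κ C → ∀ U V : E n,
  Continuous (sigt A U V) ∧ IntegrableOn (sigt A U V) (Ioi 0) ∧
  ∀ t : ℝ, 0 ≤ t → 0 ≤ sigt A U V t ∧
    sigt A U V t ≤ 4 * ‖A‖ * C * ‖U‖ ^ 2 * ‖V‖ * Real.exp ((κ - 2 * m) * t)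

/-! ## E. the second coefficient along a Loewner flow -/

/-- **EXF** (medium): first order expansion of the flow.
Proof.  Choose `μ < m` with `μ > max (m/2) (κ - m) (κ/3)` and `0 < r₀ ≤ 1/10` with
`μ ≤ m (1 - r₀)/(1 + r₀)`; `flow_decay` (with `Num`? it asks an upper bound `k` of the numerical range:
take `k = ‖A‖`) gives the first bound.  Second bound: fix `t ≥ 0` and a unit vector `y`; let
`Y(s) = exp(-(t-s) A^*) y` (`‖Y(s)‖ ≤ e^{-m(t-s)}`, `Y' = A^* Y`), `φ(s) = Re ⟨v(z,s), Y(s)⟩`, absolutely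
continuous, `φ'(s) = -Re ⟨h(v,s) - A v, Y(s)⟩ ≤ 196 ‖A‖ ‖z‖² e^{-2μ s} e^{-m(t-s)}` (`remainder2`).
`ac_le_zero` for `φ(s) + K ‖z‖² e^{-mt} e^{-(2μ-m)s}`, `K = 196 ‖A‖/(2μ - m)`, on `[0, t]`:
`Re ⟨v(z,t) - fw A z t, y⟩ = φ(t) - φ(0) ≤ K ‖z‖² e^{-mt}`.  Take the supremum over `y`. -/
def EXF_stmt : Prop := ∀ (n : ℕ) (A : E n →L[ℂ] E n) (m κ C : ℝ), Cls A m κ C →
  ∃ r₀ K μ : ℝ, 0 < r₀ ∧ r₀ ≤ 1 / 10 ∧ 0 ≤ K ∧ 0 < μ ∧ μ ≤ m ∧ κ < m + μ ∧ κ < 3 * μ ∧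
    ∀ h v : E n → ℝ → E n, IsHerglotz A h → IsLoewner h v → ∀ z : E n, ‖z‖ ≤ r₀ →
      ∀ t : ℝ, 0 ≤ t → ‖v z t‖ ≤ ‖z‖ * Real.exp (-(μ * t)) ∧
        ‖v z t - fw A z t‖ ≤ K * ‖z‖ ^ 2 * Real.exp (-(m * t))

/-- **MEA** (medium): measurability of the integrand.
Proof.  For fixed `x : E n`, `P2 h_t x = lim_{k → ∞} (k²/2) (h(x/k, t) + h(-x/k, t))` for almost every
`t ≥ 0` (`taylor2`), and `h(±x/k, ·)` is a.e. strongly measurable for `k > ‖x‖`; so `t ↦ P2 h_t x` is a.e. strongly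
measurable.  `P2 h_t` is a quadratic form: with the standard basis `e_i`,
`P2 h_t x = ∑_{i,j} x_i x_j B_t(e_i, e_j)`, `B_t(e_i, e_j) = (P2 h_t (e_i + e_j) - P2 h_t e_i - P2 h_t e_j)/2`.
Insert `x = fw A U t` (continuous in `t`). -/
def MEA_stmt : Prop := ∀ (n : ℕ) (A : E n →L[ℂ] E n) (m κ C : ℝ), Cls A m κ C →
  ∀ h : E n → ℝ → E n, IsHerglotz A h → ∀ U V : E n,
    AEStronglyMeasurable (fun t : ℝ => (inner ℂ (dual A V t) (P2 (fun z => h z t) (fw A U t)) : ℂ))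
      (volume.restrict (Ioi (0 : ℝ)))

/-- **PF2** (LONG): the formula for `P₂`.
Proof.  Let `F(t)` be the integrand.  By `P2_bound` and LIN `‖F(t)‖ ≤ 4 ‖A‖ C ‖U‖² ‖V‖ e^{(κ-2m)t}`, so
`F` is integrable (MEA).  It is enough to prove the equality of the real parts for all `V` (replace `V`
by `i V`).  Let `z = r U`, `0 < r`, `r ‖U‖ ≤ r₀` (EXF), `φ(t) = Re (inner (dual A V t) (v z t))`; it is
absolutely continuous (`ac_reInner`, `dual_ac`) and for a.e. `t`: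
`φ'(t) = -Re (inner V_t (h(v,t) - A v))` (`V_t = dual A V t`).  By `remainder3`, PLI and EXF
`|φ'(t) + r² Re F(t)| ≤ K' r³ e^{-δ t}`, where `r² F(t) = inner V_t (P2 h_t (fw A z t))`, `K'` does not depend
on `r` and `δ = min (3μ - κ) (m + μ - κ) > 0`: indeed
`‖P2 h_t v - P2 h_t (fw A z t)‖ ≤ 4 ‖A‖ (2 ‖z‖ e^{-μt}) (K ‖z‖² e^{-mt})`.  Apply `ac_le_zero` on
`[0, T]` to `±(φ(t) + r² ∫_0^t Re F) + (K' r³/δ) e^{-δt}` (the integral is absolutely continuous with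
derivative `Re F(t)` a.e.): `|φ(T) - φ(0) + r² ∫_0^T Re F| ≤ K' r³/δ`.  `T → ∞`:
`|Re (inner V (f(rU))) - r Re (inner V U) + r² ∫_0^∞ Re F| ≤ K' r³/δ`; with `taylor2` for `f`
(`f(rU) = rU + r² P2 f U + O(r³)`) divide by `r²` and let `r → 0`. -/
def PF2_stmt : Prop := ∀ (n : ℕ) (A : E n →L[ℂ] E n) (m κ C : ℝ), Cls A m κ C →
  ∀ (h v : E n → ℝ → E n) (f : E n → E n), IsHerglotz A h → IsLoewner h v →
  AnalyticOnNhd ℂ f (ball 0 1) → f 0 = 0 → fderiv ℂ f 0 = ContinuousLinearMap.id ℂ (E n) →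
  (∀ z ∈ ball (0 : E n) 1,
    Tendsto (fun t : ℝ => (NormedSpace.exp ((t : ℂ) • A)) (v z t)) atTop (𝓝 (f z))) →
  ∀ U V : E n,
    IntegrableOn (fun t : ℝ => (inner ℂ (dual A V t) (P2 (fun z => h z t) (fw A U t)) : ℂ)) (Ioi 0) ∧
    (inner ℂ V (P2 f U) : ℂ) =
      -∫ t in Ioi (0 : ℝ), (inner ℂ (dual A V t) (P2 (fun z => h z t) (fw A U t)) : ℂ)

/-- **UPB** (short): the upper bound, from PF2, SUP, INT (`TendstoLocallyUniformlyOn.tendsto_at`). -/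
def UPB_stmt : Prop := ∀ (n : ℕ) (A : E n →L[ℂ] E n) (m κ C : ℝ), Cls A m κ C →
  ∀ f : E n → E n, ParamRep A f → ∀ U V : E n, ‖(inner ℂ V (P2 f U) : ℂ)‖ ≤ JA A U V

/-! ## F. construction of maps with parametric representation -/

/-- **NEM** (medium): the superposition operator of a polynomial map is analytic on `C(K, E n)`.
Proof.  `C(K, ℂ)` is a commutative Banach algebra; `x ↦ (i-th coordinate of x) ∈ C(K, ℂ)` is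
continuous linear; `AnalyticAt.aeval_mvPolynomial` for `p j`; then `C(K, ℂ)ⁿ → C(K, E n)` is continuous linear. -/
def NEM_stmt : Prop := ∀ (n : ℕ) (p : Fin n → MvPolynomial (Fin n) ℂ) (τ : ℝ),
  ∃ N : C(Icc (0 : ℝ) τ, E n) → C(Icc (0 : ℝ) τ, E n),
    (∀ x s, N x s = pm p (x s)) ∧ AnalyticOnNhd ℂ N univ

/-- **LEX** (medium/long): short time existence.
Proof.  `pm p` is Lipschitz (`K`) and bounded (`L`) on `closedBall 0 2` (it is `C¹`).  Picard-Lindelof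
(`IsPicardLindelof`, time independent, centre `0`, `a = 2`, `r = 1`, interval `[0, τ]`, `τ ≤ τ₀`,
`L τ₀ ≤ 1`, `K τ₀ ≤ 1/2`) gives `X z` for `‖z‖ ≤ 1`.  In the ball: `d/dt ‖X‖² = -2 Re ⟨pm p X, X⟩ ≤ 0` as long as
`‖X‖ < 1` (`IsCara.nonneg`), so `‖X z t‖ ≤ ‖z‖ < 1` (first exit time argument).  The Lipschitz bound is
Gronwall's inequality (`dist_le_of_trajectories_ODE_of_mem`) with `e^{K τ} ≤ e^{1/2} ≤ 2`. -/
def LEX_stmt : Prop := ∀ (n : ℕ) (A : E n →L[ℂ] E n) (p : Fin n → MvPolynomial (Fin n) ℂ),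
  IsCara A (pm p) → ∃ τ₀ K : ℝ, 0 < τ₀ ∧ 0 ≤ K ∧ τ₀ * K ≤ 1 / 2 ∧
    (∀ x y : E n, ‖x‖ ≤ 2 → ‖y‖ ≤ 2 → ‖pm p x - pm p y‖ ≤ K * ‖x - y‖) ∧
    ∀ τ : ℝ, 0 < τ → τ ≤ τ₀ → ∃ X : E n → ℝ → E n,
      (∀ z ∈ ball (0 : E n) 1, X z 0 = z) ∧
      (∀ z ∈ ball (0 : E n) 1, ∀ t ∈ Icc (0 : ℝ) τ, X z t ∈ ball (0 : E n) 1) ∧
      (∀ z ∈ ball (0 : E n) 1, ∀ t ∈ Icc (0 : ℝ) τ,
        HasDerivWithinAt (X z) (-(pm p (X z t))) (Icc (0 : ℝ) τ) t) ∧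
      (∀ z ∈ ball (0 : E n) 1, ∀ z' ∈ ball (0 : E n) 1, ∀ t ∈ Icc (0 : ℝ) τ,
        ‖X z t - X z' t‖ ≤ 2 * ‖z - z'‖)

/-- **LAN** (LONG): the short time flow is holomorphic in the initial value.
Proof.  `K = [0, τ]`, `𝒞 = C(K, E n)`, `J : 𝒞 →L 𝒞` the integration operator `(J y)(t) = ∫_0^t y`,
`‖J‖ ≤ τ`; `N` from NEM; `𝔽(x) = x + J (N x)`, analytic.  If `‖x‖ < 2` then `‖fderiv N x‖ ≤ K_Lip` (`N` is
Lipschitz with the constant of LEX on `ball 0 2`), so `‖J ∘ fderiv N x‖ ≤ 1/2` and `fderiv 𝔽 x` is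
invertible.  Let `z₀` be in the ball and `x₀ = X z₀ ∈ 𝒞`; `𝔽(x₀) = const z₀` (fundamental theorem).
`ContDiffAt.to_localInverse` with exponent `ω` (analytic inverse function theorem): the local inverse
`G` of `𝔽` near `x₀` is analytic at `const z₀`.  For `z` near `z₀` the function `X z ∈ 𝒞` is near `x₀` (Lipschitz
bound of LEX), hence in the source of the local homeomorphism, and `𝔽(X z) = const z`, so
`X z = G(const z)`.  Evaluation at `t` and `z ↦ const z` are continuous linear. -/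
def LAN_stmt : Prop := ∀ (n : ℕ) (A : E n →L[ℂ] E n) (p : Fin n → MvPolynomial (Fin n) ℂ),
  IsCara A (pm p) → ∃ τ₀ : ℝ, 0 < τ₀ ∧ ∀ τ : ℝ, 0 < τ → τ ≤ τ₀ → ∃ X : E n → ℝ → E n,
    LFlow (pm p) τ X

/-- **GLU** (LONG): gluing short flows.
Proof.  `φ_0 = id`, `φ_{i+1}(z) = X_i(φ_i(z), τ)` (analytic maps of the ball into itself, `i < N`);
`v z t = X_i (φ_i z) (t - iτ)` for `i = ⌊t/τ⌋₊ < N` and `v z t = fw A (φ_N z) (t - Nτ)` for `t ≥ Nτ`.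
Values in the ball (`‖fw A x t‖ ≤ ‖x‖`); `v z` is continuous on `[0, ∞)` (the pieces match),
differentiable with derivative `-hglue (v z t) t` except at the times `iτ`; absolutely continuous on
`[0, T]` (it is Lipschitz: the derivative is bounded on each piece because `H i` is continuous on the
compact image of `[0, τ]`, resp. `A` is bounded).  `IsHerglotz`: `IsCara A A` from `Cls`; measurability: `hglue A N τ H z` is a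
step function with finitely many values. -/
def GLU_stmt : Prop := ∀ (n : ℕ) (A : E n →L[ℂ] E n) (m κ C : ℝ), Cls A m κ C →
  ∀ (N : ℕ) (τ : ℝ), 0 < τ → ∀ (H : ℕ → E n → E n) (X : ℕ → E n → ℝ → E n),
  (∀ i < N, IsCara A (H i) ∧ LFlow (H i) τ (X i)) →
  IsHerglotz A (hglue A N τ H) ∧ ∃ v : E n → ℝ → E n, IsLoewner (hglue A N τ H) v ∧
    (∀ t : ℝ, 0 ≤ t → AnalyticOnNhd ℂ (fun z => v z t) (ball (0 : E n) 1)) ∧
    ∀ z ∈ ball (0 : E n) 1, ∀ t : ℝ, N * τ ≤ t → v z t = fw A (v z (N * τ)) (t - N * τ)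

/-- **CNS** (medium): the limit map.
Proof.  `f(z) = exp(NτA) (v z (Nτ))`; for `t ≥ Nτ` `exp(tA) (v z t) = f z` (LIN), so the limit is trivially
locally uniform.  `f` is analytic; `‖v 0 t‖ ≤ 0` (`flow_le`), so `f 0 = 0`; EXF:
`‖v z (Nτ) - fw A z (Nτ)‖ ≤ K ‖z‖²` near `0`, hence `‖f z - z‖ ≤ K' ‖z‖²` and `fderiv f 0 = id`. -/
def CNS_stmt : Prop := ∀ (n : ℕ) (A : E n →L[ℂ] E n) (m κ C : ℝ), Cls A m κ C →
  ∀ (N : ℕ) (τ : ℝ), 0 < τ → ∀ (H : ℕ → E n → E n) (X : ℕ → E n → ℝ → E n),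
  (∀ i < N, IsCara A (H i) ∧ LFlow (H i) τ (X i)) →
  IsHerglotz A (hglue A N τ H) ∧ ∃ (v : E n → ℝ → E n) (f : E n → E n),
    IsLoewner (hglue A N τ H) v ∧ ParamRep A f ∧
    (∀ z ∈ ball (0 : E n) 1,
      Tendsto (fun t : ℝ => (NormedSpace.exp ((t : ℂ) • A)) (v z t)) atTop (𝓝 (f z)))

/-- **PWC** (medium): the second coefficient of the glued map.
Proof.  PF2 for `hglue`; for `t ∈ [iτ, (i+1)τ)`, `i < N`, the integrand is that of `H i`; for `t ≥ Nτ` it is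
`inner V_t (P2 A U_t) = 0`.  Split the integral. -/
def PWC_stmt : Prop := ∀ (n : ℕ) (A : E n →L[ℂ] E n) (m κ C : ℝ), Cls A m κ C →
  ∀ (N : ℕ) (τ : ℝ), 0 < τ → ∀ (H : ℕ → E n → E n) (X : ℕ → E n → ℝ → E n),
  (∀ i < N, IsCara A (H i) ∧ LFlow (H i) τ (X i)) →
  ∃ f : E n → E n, ParamRep A f ∧ ∀ U V : E n,
    (inner ℂ V (P2 f U) : ℂ) = -∑ i ∈ Finset.range N,
      ∫ t in (i * τ)..((i + 1) * τ), (inner ℂ (dual A V t) (P2 (H i) (fw A U t)) : ℂ)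

/-- **LWB** (LONG): the lower bound.
Proof.  If `U = 0` or `V = 0` then `sigt = 0` and `JA = 0`; take any `f` (e.g. PWC with `N = 0`).  Otherwise
`U_t = fw A U t ≠ 0`, `V_t = dual A V t ≠ 0` (LIN).  Let `ε > 0`.  Choose `T > 0` with `∫_T^∞ sigt ≤ ε/2` and put `η = ε/(6T)`.  By uniform
continuity on `[0, T]` choose `M ≥ 1` such that for `s, t ∈ [0, T]`, `|s - t| ≤ T/M`: `|sigt s - sigt t| ≤ η` and
`4 ‖A‖ (‖U_s‖² ‖V_s - V_t‖ + ‖V_t‖ (‖U_s‖ + ‖U_t‖) ‖U_s - U_t‖) ≤ η`.  For `j < M`, `t_j = jT/M`: SEP gives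
`p_j` with `Good n A U_{t_j} V_{t_j} (sigt t_j - η) p_j`; PSC, PP2: `h_j = pm p_j` is in the class and
`-Re (inner V_{t_j} (P2 h_j U_{t_j})) ≥ sigt t_j - η`; by PLI for `t ∈ [t_j, t_{j+1}]`:
`-Re (inner V_t (P2 h_j U_t)) ≥ sigt t - 3η`.  LAN gives `τ_j > 0` for `h_j`; choose `R ≥ 1` with
`T/(M R) ≤ τ_j` for all `j < M`, `N = M R`, `τ = T/N`, `H i = h_{i / R}`.  PWC:
`Re (inner V (P2 f U)) = ∑_i ∫_{iτ}^{(i+1)τ} -Re (inner V_t (P2 (H i) U_t)) dt ≥ ∫_0^T (sigt t - 3η) dt ≥ JA - ε`. -/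
def LWB_stmt : Prop := ∀ (n : ℕ) (A : E n →L[ℂ] E n) (m κ C : ℝ), Cls A m κ C → ∀ U V : E n,
  ∀ ε : ℝ, 0 < ε → ∃ f : E n → E n, ParamRep A f ∧ JA A U V - ε ≤ ‖(inner ℂ V (P2 f U) : ℂ)‖

/-! ## G. the theorem -/

/-- **FIN** (short/medium): the final theorem, from CLS, INT, UPB, LWB.  (For the second and the
third item: `‖P2 f z‖ = sup_{‖V‖ = 1} ‖inner V (P2 f z)‖`; the sets on the right are bounded above by
INT: `JA A U V ≤ ∫ 4 ‖A‖ C e^{(κ-2m)t}` for unit vectors.) -/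
def FIN_stmt : Prop := ∀ (n : ℕ) (A : E n →L[ℂ] E n), kPlus A < 2 * mNum A →
  (∀ U V : E n, IntegrableOn (sigt A U V) (Ioi 0) ∧
    IsLUB {x : ℝ | ∃ f, ParamRep A f ∧ x = ‖(inner ℂ V (P2 f U) : ℂ)‖} (JA A U V)) ∧
  IsLUB {x : ℝ | ∃ f, ParamRep A f ∧ ∃ z : E n, ‖z‖ = 1 ∧ x = ‖P2 f z‖}
    (sSup {y : ℝ | ∃ U V : E n, ‖U‖ = 1 ∧ ‖V‖ = 1 ∧ y = JA A U V}) ∧
  IsLUB {x : ℝ | ∃ f, ParamRep A f ∧ ∃ z : E n, ‖z‖ = 1 ∧ x = ‖(inner ℂ z (P2 f z) : ℂ)‖}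
    (sSup {y : ℝ | ∃ U : E n, ‖U‖ = 1 ∧ y = JA A U U})

end Pool.Agent.helper64.QF
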